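import Pool.Agent.Q304.BS1
import Pool.Agent.Y560.BE.All

/-!
For every `d ≥ 2` there is a subshift of finite type of `ℤ^d` which admits a Baire measurable
equivariant map from the free part of the shift on `2^(ℤ^d)`, but no equivariant map that is
measurable for the fair coin measure, and hence no Borel equivariant map.
-/

set_option autoImplicit false

namespace Pool.Agent.Results.MP_6540cb_lc.BaireNotMeasure

open MeasureTheory Set

/-- The shift action: `(g · x)(h) = x (h + g)`. -/
def shift {A : Type} {d : ℕ} (g : Fin d → ℤ) (x : (Fin d → ℤ) → A) : (Fin d → ℤ) → A :=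
  fun h => x (h + g)

/-- The free part of `2^(ℤ^d)`. -/
def F (d : ℕ) : Set ((Fin d → ℤ) → Bool) := {x | ∀ g : Fin d → ℤ, g ≠ 0 → shift g x ≠ x}

/-- The fair coin Bernoulli measure restricted to the free part. -/
noncomputable def bernoulli (d : ℕ) : Measure (F d) :=
  Measure.comap Subtype.val (Measure.infinitePi fun _ : Fin d → ℤ =>
    (2⁻¹ : ENNReal) • (Measure.dirac true + Measure.dirac false))

/-- `S` consists of all configurations that avoid a finite set of finite patterns. -/
def IsSFT {A : Type} {d : ℕ} (S : Set ((Fin d → ℤ) → A)) : Prop :=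
  ∃ P : Set (Σ D : Finset (Fin d → ℤ), (D → A)), P.Finite ∧
    S = {x | ∀ p ∈ P, ∀ g : Fin d → ℤ, (fun h : p.1 => shift g x h.1) ≠ p.2}

/-- `T` is an equivariant map from the free part to `S`. -/
def Equi {A : Type} {d : ℕ} (S : Set ((Fin d → ℤ) → A)) (T : F d → ((Fin d → ℤ) → A)) : Prop :=
  (∀ x, T x ∈ S) ∧ ∀ (g : Fin d → ℤ) (x y : F d), y.1 = shift g x.1 → T y = shift g (T x)

/-- Condition (i): there is a Borel equivariant map. -/
def BorelCond {k d : ℕ} (S : Set ((Fin d → ℤ) → Fin k)) : Prop :=
  ∃ T, Equi S T ∧ ∀ B, MeasurableSet B → MeasurableSet (T ⁻¹' B)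

/-- Condition (ii): there is a Baire measurable equivariant map. -/
def BaireCond {k d : ℕ} (S : Set ((Fin d → ℤ) → Fin k)) : Prop :=
  ∃ T, Equi S T ∧ ∀ B, MeasurableSet B → BaireMeasurableSet (T ⁻¹' B)

/-- There is a `μ`-measurable equivariant map. -/
def MeasCond {k d : ℕ} (S : Set ((Fin d → ℤ) → Fin k)) (μ : Measure (F d)) : Prop :=
  ∃ T, Equi S T ∧ ∀ B, MeasurableSet B → NullMeasurableSet (T ⁻¹' B) μ

/-- For every `d ≥ 2` condition (ii) does not imply condition (iii), not even for the fair coin
Bernoulli measure, and hence does not imply condition (i). -/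
theorem result (d : ℕ) (hd : 2 ≤ d) : IsProbabilityMeasure (bernoulli d) ∧
    ∃ (k : ℕ) (S : Set ((Fin d → ℤ) → Fin k)), IsSFT S ∧ BaireCond S ∧
      ¬ MeasCond S (bernoulli d) ∧
      ¬ (∀ μ : Measure (F d), IsProbabilityMeasure μ → MeasCond S μ) ∧ ¬ BorelCond S := by
  classical
  have hpr : IsProbabilityMeasure (bernoulli d) :=
    (inferInstance : IsProbabilityMeasure (Pool.Agent.Q304.BS.bernF d))
  refine ⟨hpr, ?_⟩
  let u : Fin d → ℤ := Pi.single ⟨0, by omega⟩ 1
  let v : Fin d → ℤ := Pi.single ⟨1, by omega⟩ 1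
  have hFr : Pool.Agent.Y560.BE.Fr u v := by
    refine ⟨add_comm _ _, ?_⟩
    intro t x h
    have h1 := congrFun h ⟨0, by omega⟩
    have h2 := congrFun h ⟨1, by omega⟩
    simp [u, v] at h1 h2
    exact ⟨h1, h2⟩
  have hv : v ≠ 0 := by
    intro h
    have h1 := congrFun h ⟨1, by omega⟩
    simp [v] at h1
  obtain ⟨P, hB, -, hM⟩ := Pool.Agent.Y560.BE.main hFr
  let a : (Fin d → ℤ) → F d → F d := Pool.Agent.Q304.BS.act
  have ha : Pool.Agent.W927.BM.FreeBorel a := ⟨Pool.Agent.Q304.BS.act_zero,
    Pool.Agent.Q304.BS.act_add, Pool.Agent.Q304.BS.meas_act,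
    fun g x h => Pool.Agent.Q304.BS.act_free g x h⟩
  let S : Set ((Fin d → ℤ) → Fin P.k) := {x | ∀ g, (fun h : P.W => shift g x h.1) ∈ P.A}
  have hSFT : IsSFT S := by
    refine ⟨(fun w : P.W → Fin P.k => (⟨P.W, w⟩ : Σ D : Finset (Fin d → ℤ), (D → Fin P.k))) ''
      {w | w ∉ P.A}, (Set.toFinite _).image _, ?_⟩
    ext x
    constructor
    · rintro hx _ ⟨w, hw, rfl⟩ g h
      have h1 := hx g
      rw [show (fun h : P.W => shift g x h.1) = w from h] at h1
      exact hw h1
    · intro hx g
      by_contra hg
      exact hx _ ⟨_, hg, rfl⟩ g rfl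
  have hnot : ¬ MeasCond S (bernoulli d) := by
    rintro ⟨T, hT, hTm⟩
    let f : F d → Fin P.k := fun x => T x 0
    have hf : ∀ i, NullMeasurableSet (f ⁻¹' {i}) (bernoulli d) := by
      intro i
      exact hTm ((fun x => x 0) ⁻¹' {i}) ((measurable_pi_apply 0) (measurableSet_singleton i))
    have hlab : P.IsLabelling a f := by
      intro x
      have h1 := hT.1 x 0
      have h2 : (fun σ : P.W => f (a σ.1 x)) = fun h : P.W => shift 0 (T x) h.1 := by
        funext σ
        have h3 := hT.2 σ.1 x (a σ.1 x) rfl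
        change T (a σ.1 x) 0 = T x (σ.1 + 0)
        rw [h3]
        change T x (0 + σ.1) = T x (σ.1 + 0)
        rw [zero_add, add_zero]
      rw [h2]
      exact h1
    obtain ⟨E, hE, hEv, hEu⟩ := (hM (F d) a ha (bernoulli d) hpr
      Pool.Agent.Q304.BS.mp_act).1 ⟨f, hf, hlab⟩
    have herg : Ergodic (a v) (bernoulli d) := Pool.Agent.Q304.BS.erg_act hv
    have hqe := herg.quasiErgodic.ae_empty_or_univ₀ hE.nullMeasurableSet hEv
    have hmp : MeasurePreserving (a u) (bernoulli d) (bernoulli d) :=
      Pool.Agent.Q304.BS.mp_act u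
    have hmeas : bernoulli d E = bernoulli d Eᶜ := by
      rw [← hmp.measure_preimage hE.nullMeasurableSet]
      exact measure_congr hEu
    have hsum : bernoulli d E + bernoulli d Eᶜ = 1 := prob_add_prob_compl hE
    rcases hqe with h | h
    · have h1 : bernoulli d E = 0 := by rw [measure_congr h]; simp
      rw [← hmeas, h1] at hsum
      simp at hsum
    · have h1 : bernoulli d Eᶜ = 0 := ae_eq_univ.1 h
      rw [hmeas, h1] at hsum
      simp at hsum
  refine ⟨P.k, S, hSFT, ?_, hnot, fun h => hnot (h _ hpr), ?_⟩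
  · have hpol : PolishSpace (F d) := (inferInstance : PolishSpace (Pool.Agent.Q304.BS.F d))
    obtain ⟨f, hf, hlab⟩ := hB (F d) a ha
    refine ⟨fun x g => f (a g x), ⟨?_, ?_⟩, ?_⟩
    · intro x g
      have h1 := hlab (a g x)
      have h2 : (fun h : P.W => shift g (fun g => f (a g x)) h.1) =
          fun σ : P.W => f (a σ.1 (a g x)) := by
        funext σ
        change f (a (σ.1 + g) x) = _
        rw [ha.add]
      rw [h2]
      exact h1
    · intro g x y hy
      have hy' : y = a g x := Subtype.ext hy
      funext h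
      change f (a h y) = f (a (h + g) x)
      rw [ha.add, hy']
    · intro B hB
      have hm : @Measurable (F d) ((Fin d → ℤ) → Fin P.k)
          (eventuallyMeasurableSpace (borel _) (residual _)) MeasurableSpace.pi
          (fun x g => f (a g x)) := by
        refine @measurable_pi_lambda _ _ _ (_) _ _ fun g => ?_
        refine @measurable_to_countable' (Fin P.k) (F d) _ _
          (eventuallyMeasurableSpace (borel _) (residual _)) (fun x => f (a g x)) fun i => ?_
        have h1 : BaireMeasurableSet (a g ⁻¹' (f ⁻¹' {i})) := by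
          have hc : Continuous (a g) := Pool.Agent.Q304.BS.continuous_act g
          have hc' : Continuous (a (-g)) := Pool.Agent.Q304.BS.continuous_act (-g)
          let e : F d ≃ₜ F d :=
            { toFun := a g
              invFun := a (-g)
              left_inv := fun x => by rw [← ha.add, neg_add_cancel, ha.zero]
              right_inv := fun x => by rw [← ha.add, add_neg_cancel, ha.zero]
              continuous_toFun := hc
              continuous_invFun := hc' }
          exact BaireMeasurableSet.preimage e.continuous e.isOpenMap (hf i)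
        exact h1
      exact hm hB
  · rintro ⟨T, hT, hTm⟩
    exact hnot ⟨T, hT, fun B hB => (hTm B hB).nullMeasurableSet⟩

end Pool.Agent.Results.MP_6540cb_lc.BaireNotMeasure
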